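import Mathlib
import Pool.Agent.PRF3.T7
import Pool.Agent.PRF3.T8

/-!
# MP_1b773e: finite colourings without monochromatic `a, b, ab, a ^ b, a ^ b * b` for coprime `a, b > 1`, and for pairs
whose common prime factors are in a given set

Let `T` be a set of primes. The main case is that of the pairs `a, b > 1` whose common prime factors are in `T`, while
`ab` has a prime factor outside `T` (`Pool.Agent.Hhelper34.CopT.common_none`); for `T = ∅` these are the coprime pairs.
Write `μ (n)` and `M (n)` for the least and the largest exponent of a prime outside `T` in the prime factorization of
`n`. First colourings are used for which every monochromatic pattern of this kind has the following properties.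

* `μ (a) ≤ μ (b)`, and `b ≥ 64` (`PRF3.low`).
* `a` and `b` are `m`-th powers with `m ^ 2 > μ (a)` (`PRF3.own`).
* For `n = b`, `M (n)` does not divide `n * w` if `0 < w ≤ μ (n) ^ 2`. This is so for `n = a`: `M (a)` is divisible by
  `B ^ 2`, where `B > μ (b)` is the part of `b` outside `T`, by `Pool.Agent.Hhelper34.CopT.threeT`, a theorem on the
  divisors `x` of the part `A` of `a` outside `T` for which `A / x` is an `x`-th power.

Join `a` to `a ^ b * b` for all pairs `a, b` with these three properties. This graph has no closed walk of odd length
(`PRF3.main`), so it has a two-colouring, and the latter together with the first colourings has no monochromatic pattern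
of this kind. The proof is an induction on the number of prime factors outside `T`. A closed walk has a vertex `C` whose
primes outside `T` divide all its other vertices; the exponents of these primes in a vertex form a multiple of the
exponent vector of `C`, and the other parts of the vertices form walks in the same graph. Such a walk goes from a number
`Y` to a number `Y'` for which `C, Y` and `C, Y'` are pairs with the three properties, and `Y = Y'` must be shown. This
is the separation of numbers with `e' x' M (x) = e x M (x')`, `e ≤ μ (x)`, `e' ≤ μ (x')`. In its proof the third property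
gives `M (Y) = M (Y')`, and the second one shows that `Y / Y'` is a perfect power, so that it is not close to `1`.

The number of colours does not depend on `T`, so `T` may depend on `n` as long as the five numbers have the same `T`.
If a prime outside `T` divides `a` and `b`, then its exponents in both are large in terms of the least prime factor of
`ab` outside `T` (`PRF3.bigT`), so the greatest common divisor is large.
-/

namespace Pool.Agent.Results.MP_1b773e_co.CoprimePairs

/-- Iterated exponentials: `tower 0 n = n`, `tower (k + 1) n = 2 ^ tower k n`. -/
def tower : ℕ → ℕ → ℕ
  | 0, n => n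
  | k + 1, n => 2 ^ tower k n

private theorem tower_eq (k n : ℕ) : tower k n = PRF.TGap.tower k n := by
  induction k with
  | zero => rfl
  | succ k ih => rw [tower, PRF.TGap.tower, ih]

/-- **Result.** For every `k` there is a number `r` such that for all sets `T n` (one for every number `n`; for instance
the same set for all `n`) there is a colouring with `r` colours for which the five numbers `a, b, ab, a ^ b, a ^ b * b`
do not all have the same colour if `a, b > 1`, the five numbers `n` have the same set `T n`, and

* `ab` has a prime factor outside this set, or a prime factor `q ≤ k` not dividing `gcd (a, b)`;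
* the largest power of `p` dividing `gcd (a, b)` is at most `tower k q` for all prime factors `p` of `gcd (a, b)` and
  `q` of `ab` outside this set. (This holds if all common prime factors of `a` and `b` are in the set.)

With `T n = ∅` this excludes all coprime pairs `a, b > 1`. With `T n = {p | p ≤ k}` it excludes all pairs `a, b > 1`
without common prime factor larger than `k`, unless `a` and `b` have the same prime factors. -/
theorem result (k : ℕ) : ∃ r : ℕ, ∀ T : ℕ → Set ℕ, ∃ c : ℕ → Fin r, ∀ a b : ℕ, 1 < a → 1 < b →
    T a = T b → T (a * b) = T b → T (a ^ b) = T b → T (a ^ b * b) = T b →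
    (∃ q : ℕ, q.Prime ∧ q ∣ a * b ∧ (q ∉ T b ∨ (q ≤ k ∧ ¬ q ∣ Nat.gcd a b))) →
    (∀ p q : ℕ, p.Prime → q.Prime → p ∉ T b → q ∉ T b → p ∣ Nat.gcd a b → q ∣ a * b →
      p ^ (Nat.gcd a b).factorization p ≤ tower k q) →
    ¬ (c a = c b ∧ c a = c (a * b) ∧ c a = c (a ^ b) ∧ c a = c (a ^ b * b)) := by
  obtain ⟨r, h⟩ := PRF3.assemble k (PRF3.bigT k)
  refine ⟨r, fun T => ?_⟩
  obtain ⟨c, hc⟩ := h T
  refine ⟨c, fun a b ha hb t1 t2 t3 t4 hq hgcd hcol => ?_⟩
  refine hc a b ha hb t1 t2 t3 t4 hq ?_ hcol.1 hcol.2.1 hcol.2.2.1 hcol.2.2.2
  intro p q hp hq' hpT hqT hpd hqd
  rw [← tower_eq]
  exact hgcd p q hp hq' hpT hqT hpd hqd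

end Pool.Agent.Results.MP_1b773e_co.CoprimePairs
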