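import Pool.Agent.PRF.Digit

/-!
# MP_1b773e: one finite colouring excludes all multiplicatively dependent pairs

There is one finite colouring of the natural numbers with no monochromatic `a, b, ab, a ^ b * b` for which
`a, b > 1` are multiplicatively dependent (that is, powers of a common number), or for which `a` or `b` is a prime
power. The second part follows from the first, since the colour may record whether a number is a prime power.

Write `a = m ^ x`, `b = m ^ y` with `m` not a perfect power; then `ab = m ^ (x + y)` and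
`a ^ b * b = m ^ (m ^ y * x + y)`. Let `tz` be the number of trailing zero digits to the base `m`. The edges
`x -- y + m ^ y * x` with `tz x < tz y` form a graph without odd closed walks, and so do the edges with
`tz x = tz y`; hence two colourings with two colours separate `a` from `a ^ b * b` in these cases. If
`tz y < tz x`, then a digit of the integer part of the logarithm separates `ab` from `a ^ b * b`, unless `x` is
so small that the iterated logarithm separates `b` from `a ^ b * b`.
-/

namespace Pool.Agent.Results.MP_1b773e_co.DependentAll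

open PRF

/-- the greatest common divisor of the exponents in the factorisation -/
private def G (n : ℕ) : ℕ := n.primeFactors.gcd fun p => n.factorization p

private theorem G_pow {n b : ℕ} (hb : b ≠ 0) : G (n ^ b) = b * G n := by
  unfold G
  rw [Nat.primeFactors_pow _ hb, Nat.factorization_pow]
  simp only [Finsupp.smul_apply, smul_eq_mul]
  rw [Finset.gcd_mul_left]
  simp

private theorem G_pos {n : ℕ} (hn : 2 ≤ n) : 0 < G n := by
  rw [Nat.pos_iff_ne_zero]
  intro h
  unfold G at h
  rw [Finset.gcd_eq_zero_iff] at h
  have h1 : n.minFac ∈ n.primeFactors := by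
    rw [Nat.mem_primeFactors]
    exact ⟨Nat.minFac_prime (by omega), Nat.minFac_dvd n, by omega⟩
  have h2 := (Nat.minFac_prime (show n ≠ 1 by omega)).factorization_pos_of_dvd (by omega)
    (Nat.minFac_dvd n)
  have h3 := h _ h1
  omega

private theorem exists_base {n : ℕ} (hn : 2 ≤ n) : ∃ m, m ^ G n = n := by
  refine ⟨∏ p ∈ n.primeFactors, p ^ (n.factorization p / G n), ?_⟩
  rw [← Finset.prod_pow]
  conv_rhs => rw [← Nat.prod_factorization_pow_eq_self (show n ≠ 0 by omega)]
  rw [Finsupp.prod, Nat.support_factorization]
  refine Finset.prod_congr rfl fun p hp => ?_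
  rw [← pow_mul, Nat.div_mul_cancel]
  exact Finset.gcd_dvd hp

open Classical in
/-- the base of the largest perfect power -/
private noncomputable def base (n : ℕ) : ℕ := if h : 2 ≤ n then (exists_base h).choose else 0

private theorem base_pow {n : ℕ} (hn : 2 ≤ n) : base n ^ G n = n := by
  unfold base
  rw [dif_pos hn]
  exact (exists_base hn).choose_spec

private theorem G_base {n : ℕ} (hn : 2 ≤ n) : G (base n) = 1 := by
  have h1 := G_pos hn
  have h2 : G (base n ^ G n) = G n * G (base n) := G_pow (by omega)
  rw [base_pow hn] at h2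
  have h3 : G n * 1 = G n * G (base n) := by omega
  exact (Nat.eq_of_mul_eq_mul_left h1 h3).symm

private theorem two_le_base {n : ℕ} (hn : 2 ≤ n) : 2 ≤ base n := by
  by_contra hcon
  have h1 := base_pow hn
  have h2 := G_pos hn
  have h3 : base n = 0 ∨ base n = 1 := by omega
  rcases h3 with h3 | h3
  · rw [h3, Nat.zero_pow h2] at h1
    omega
  · rw [h3, one_pow] at h1
    omega

private theorem G_base_pow {m u : ℕ} (hm : 2 ≤ m) (hG : G m = 1) (hu : 1 ≤ u) :
    G (m ^ u) = u ∧ base (m ^ u) = m := by
  have h1 : G (m ^ u) = u := by rw [G_pow (by omega), hG, mul_one]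
  refine ⟨h1, ?_⟩
  have h2 : 2 ≤ m ^ u := hm.trans (Nat.le_self_pow (by omega) m)
  have h3 := base_pow h2
  rw [h1] at h3
  exact Nat.pow_left_injective (by omega) h3

/-- two multiplicatively dependent numbers are powers of a common base -/
private theorem common {a b s t : ℕ} (ha : 2 ≤ a) (hb : 2 ≤ b) (ht : 0 < t) (h : a ^ t = b ^ s) :
    base a = base b := by
  have hs : s ≠ 0 := by
    rintro rfl
    rw [pow_zero] at h
    have : 2 ≤ a ^ t := ha.trans (Nat.le_self_pow (by omega) a)
    omega
  have h1 : t * G a = s * G b := by rw [← G_pow (by omega), ← G_pow hs, h]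
  have h2 : base a ^ (t * G a) = base b ^ (t * G a) := by
    calc base a ^ (t * G a) = (base a ^ G a) ^ t := by rw [← pow_mul, mul_comm]
      _ = a ^ t := by rw [base_pow ha]
      _ = b ^ s := h
      _ = (base b ^ G b) ^ s := by rw [base_pow hb]
      _ = base b ^ (s * G b) := by rw [← pow_mul, mul_comm]
      _ = base b ^ (t * G a) := by rw [h1]
  have h3 : 0 < t * G a := Nat.mul_pos ht (G_pos ha)
  exact Nat.pow_left_injective (by omega) h2

/-- The colouring for multiplicatively dependent pairs. -/
private theorem dep : ∃ (r : ℕ) (c : ℕ → Fin r), ∀ a b s t : ℕ, 1 < a → 1 < b → 0 < t → a ^ t = b ^ s →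
    ¬ (c b = c a ∧ c (a * b) = c a ∧ c (a ^ b * b) = c a) := by
  classical
  choose col hcol using fun p : ℕ => fun hp : 2 ≤ p => exists_col (p := p) hp
  let f : ℕ → Col := fun n => if h : 2 ≤ base n then col (base n) h (G n) else (0, 0, 0, 0, 0)
  refine ⟨Fintype.card Col, fun n => Fintype.equivFin Col (f n), ?_⟩
  rintro a b s t ha hb ht hst ⟨h1, h2, h3⟩
  have g1 := (Fintype.equivFin Col).injective h1
  have g2 := (Fintype.equivFin Col).injective h2
  have g3 := (Fintype.equivFin Col).injective h3
  have hm : 2 ≤ base a := two_le_base ha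
  have hG : G (base a) = 1 := G_base ha
  have hab := common (show 2 ≤ a from ha) hb ht hst
  have hf : ∀ u, 1 ≤ u → f (base a ^ u) = col (base a) hm u := by
    intro u hu
    obtain ⟨e1, e2⟩ := G_base_pow hm hG hu
    have : f (base a ^ u) = if h : 2 ≤ base (base a ^ u) then
      col (base (base a ^ u)) h (G (base a ^ u)) else (0, 0, 0, 0, 0) := rfl
    rw [this, e1]
    simp only [e2, hm, dif_pos]
  have hx := G_pos ha
  have hy := G_pos hb
  have ea : a = base a ^ G a := (base_pow ha).symm
  have eb : b = base a ^ G b := by rw [hab]; exact (base_pow hb).symm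
  have fa : f a = col (base a) hm (G a) := by
    conv_lhs => rw [ea]
    exact hf _ hx
  have fb : f b = col (base a) hm (G b) := by
    conv_lhs => rw [eb]
    exact hf _ hy
  have fab : f (a * b) = col (base a) hm (G a + G b) := by
    have : a * b = base a ^ (G a + G b) := by
      rw [pow_add, ← ea, ← eb]
    rw [this]
    exact hf _ (by omega)
  have fz : f (a ^ b * b) = col (base a) hm (base a ^ G b * G a + G b) := by
    have : a ^ b * b = base a ^ (base a ^ G b * G a + G b) := by
      rw [pow_add, ← eb, mul_comm b (G a), pow_mul, ← ea]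
    rw [this]
    exact hf _ (by omega)
  rw [fa, fb] at g1
  rw [fa, fab] at g2
  rw [fa, fz] at g3
  exact hcol (base a) hm (G a) (G b) hx hy g1 g2 g3

/-- There is a finite colouring of the natural numbers such that the numbers `a, b, ab, a ^ b * b` never have the
same colour if `a, b > 1` are multiplicatively dependent, or if `a` or `b` is a prime power. -/
theorem result : ∃ (r : ℕ) (c : ℕ → Fin r), ∀ a b : ℕ, 1 < a → 1 < b →
    ((∃ s t : ℕ, 0 < t ∧ a ^ t = b ^ s) ∨ IsPrimePow a ∨ IsPrimePow b) →
    ¬ (c b = c a ∧ c (a * b) = c a ∧ c (a ^ b * b) = c a) := by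
  classical
  obtain ⟨r₀, c₀, h₀⟩ := dep
  let X := Fin r₀ × Bool
  refine ⟨Fintype.card X, fun n => Fintype.equivFin X (c₀ n, decide (IsPrimePow n)), ?_⟩
  rintro a b ha hb hab ⟨h1, h2, h3⟩
  have g1 := (Fintype.equivFin X).injective h1
  have g2 := (Fintype.equivFin X).injective h2
  have g3 := (Fintype.equivFin X).injective h3
  rw [Prod.mk.injEq, decide_eq_decide] at g1 g2 g3
  have main : ∃ s t : ℕ, 0 < t ∧ a ^ t = b ^ s := by
    rcases hab with h | h
    · exact h
    · have hpa : IsPrimePow a := by
        rcases h with h | h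
        · exact h
        · exact g1.2.mp h
      have hpb : IsPrimePow b := g1.2.mpr hpa
      have hpab : IsPrimePow (a * b) := g2.2.mpr hpa
      rw [isPrimePow_nat_iff] at hpa hpb hpab
      obtain ⟨p, x, hp, hx, hpx⟩ := hpa
      obtain ⟨q, y, hq, hy, hqy⟩ := hpb
      obtain ⟨r, z, hr, hz, hrz⟩ := hpab
      have e1 : p = r := by
        have h4 : p ∣ r ^ z := by
          rw [hrz, ← hpx]
          exact (dvd_pow_self p (by omega)).mul_right _
        exact (Nat.prime_dvd_prime_iff_eq hp hr).mp (hp.dvd_of_dvd_pow h4)
      have e2 : q = r := by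
        have h4 : q ∣ r ^ z := by
          rw [hrz, ← hqy]
          exact (dvd_pow_self q (by omega)).mul_left _
        exact (Nat.prime_dvd_prime_iff_eq hq hr).mp (hq.dvd_of_dvd_pow h4)
      refine ⟨x, y, hy, ?_⟩
      rw [← hpx, ← hqy, e1, e2, ← pow_mul, ← pow_mul, mul_comm]
  obtain ⟨s, t, ht, hst⟩ := main
  exact h₀ a b s t ha hb ht hst ⟨g1.1, g2.1, g3.1⟩

end Pool.Agent.Results.MP_1b773e_co.DependentAll
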