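import Mathlib
import Pool.Agent.PRF2.Ext2
import Pool.Agent.PRF2.Many

/-!
# MP_1b773e: the extreme prime factors in a monochromatic pattern `a, b, ab, a ^ b, a ^ b * b`

* The `k` smallest and the `k` largest prime factors of `ab` and their exponents in `ab` and in `a ^ b * b` are data of
  these two numbers. If such a prime does not divide `a`, then it has the same exponent in both numbers, and by
  Kronecker's theorem (hand-in `CommonData`) a finite colouring separates the two numbers.
* If some prime `q` divides `b` but not `a`, then `a ^ b * b` has a prime factor whose exponent is at most `log₂ b`,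
  while all exponents of `a ^ b` are multiples of `b`. Comparing the least exponent with the iterated
  logarithms of the exponent of an extreme prime shows by induction that the latter exponent is very large.
* The least exponent of `a ^ b * b` belongs to a prime factor of `b` which does not divide `a`. So, again by
  Kronecker's theorem, the least exponent of `ab` belongs to a prime factor of `a`. The colour of the least exponent
  shows that it is very small, since the least exponent of `a ^ b` is between `b` and `b ^ 2`.
* In this case `a ^ b * b` has more different exponents than `a`. Since all five numbers are of the form `y ^ m * m` for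
  a pair of the same kind, they have many different exponents.
* If the least (largest) prime factor `p` of `ab` divides `b`, then `p` is the least (largest) prime factor of
  all five numbers. The exponents of `p` are `x, y, x + y, bx, bx + y`, and the last digits of these numbers to a
  prime base `g` show that `v_g (x) < v_g (y)`.
-/

namespace Pool.Agent.Results.MP_1b773e_co.ExtremePrimes

/-- Iterated exponentials: `tower 0 n = n`, `tower (k + 1) n = 2 ^ tower k n`. -/
def tower : ℕ → ℕ → ℕ
  | 0, n => n
  | k + 1, n => 2 ^ tower k n

private theorem tower_eq (k n : ℕ) : tower k n = PRF.TGap.tower k n := by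
  induction k with
  | zero => rfl
  | succ k ih => rw [tower, PRF.TGap.tower, ih]

/-- For every `k` there is a finite colouring such that for all `a, b > 1` for which `a, b, ab, a^b, a^b b` have the
same colour and for every prime factor `p` of `ab` the following holds. If `p` is one of the `k` smallest or one of
the `k` largest prime factors of `ab`, then `p` divides `a`, and if moreover `b` has a prime factor which does not
divide `a`, then the exponent of `p` in `a` is larger than `tower k b`. If `p` does not divide `a`, then for some prime
factor `q` of `a` the exponent `v` of `q` in `ab` is at most the exponent of `p` in `ab`, and `tower k v < b`.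
If `p` is the least or the largest prime factor of `ab` and divides `b`, then for every prime number `g ≤ k`
the exponent `x` of `p` in `a` and the exponent `y` of `p` in `b` satisfy `g ^ k ∣ x` and `v_g (x) + k < v_g (y)`.
Finally, if `b` has a prime factor which does not divide `a`, then each of the numbers `a, b, ab, a^b, a^b b` has more
than `k` different exponents in its factorisation into primes. -/
theorem result (k : ℕ) : ∃ (r : ℕ) (c : ℕ → Fin r), ∀ a b : ℕ, 1 < a → 1 < b →
    c a = c b → c a = c (a * b) → c a = c (a ^ b) → c a = c (a ^ b * b) →
    (∀ p ∈ (a * b).primeFactors,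
      ((((a * b).primeFactors.filter (· < p)).card < k ∨ ((a * b).primeFactors.filter (p < ·)).card < k) →
        p ∣ a ∧ (¬ b.primeFactors ⊆ a.primeFactors → tower k b < a.factorization p)) ∧
      (¬ p ∣ a → ∃ q ∈ a.primeFactors, (a * b).factorization q ≤ (a * b).factorization p ∧
        tower k ((a * b).factorization q) < b) ∧
      ((((a * b).primeFactors.filter (· < p)).card = 0 ∨ ((a * b).primeFactors.filter (p < ·)).card = 0) →
        p ∣ b → ∀ g : ℕ, g.Prime → g ≤ k → g ^ k ∣ a.factorization p ∧
          (a.factorization p).factorization g + k < (b.factorization p).factorization g)) ∧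
    (¬ b.primeFactors ⊆ a.primeFactors → ∀ n ∈ ({a, b, a * b, a ^ b, a ^ b * b} : Set ℕ),
      k < (n.primeFactors.image n.factorization).card) := by
  classical
  obtain ⟨r₁, c₁, h₁⟩ := PRF2.extreme k
  obtain ⟨r₂, c₂, h₂⟩ := PRF2.strict_both k
  obtain ⟨r₃, c₃, h₃⟩ := PRF2.low k
  obtain ⟨r₄, c₄, h₄⟩ := PRF2.many k
  let X := Fin r₁ × Fin r₂ × Fin r₃ × Fin r₄
  refine ⟨Fintype.card X, fun n => Fintype.equivFin X (c₁ n, c₂ n, c₃ n, c₄ n), ?_⟩
  intro a b ha hb e1 e2 e3 e4
  have g1 := (Fintype.equivFin X).injective e1
  have g2 := (Fintype.equivFin X).injective e2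
  have g3 := (Fintype.equivFin X).injective e3
  have g4 := (Fintype.equivFin X).injective e4
  rw [Prod.mk.injEq, Prod.mk.injEq, Prod.mk.injEq] at g1 g2 g3 g4
  refine ⟨?_, fun hnew n hn => h₄ a b ha hb g1.2.2.2 g2.2.2.2 g3.2.2.2 g4.2.2.2 hnew n
    (by simpa only [Set.mem_insert_iff, Set.mem_singleton_iff] using hn)⟩
  intro p hp
  have main := h₁ a b ha hb g1.1 g2.1 g3.1 g4.1 p hp
  refine ⟨?_, ?_, ?_⟩
  · intro hpos
    obtain ⟨u1, u2⟩ := main hpos
    refine ⟨Nat.dvd_of_mem_primeFactors u1, fun hnew => ?_⟩
    obtain ⟨q, hq, hlt⟩ := u2 hnew
    rw [tower_eq]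
    have hq1 : 1 ≤ a.factorization q := by
      rw [← Nat.support_factorization, Finsupp.mem_support_iff] at hq
      omega
    exact lt_of_le_of_lt (PRF.TGap.tower_mono' k (Nat.le_mul_of_pos_right b hq1)) hlt
  · intro hpa
    have hpa' : p ∉ a.primeFactors := fun h => hpa (Nat.dvd_of_mem_primeFactors h)
    have hpb : p ∈ b.primeFactors := by
      rw [Nat.primeFactors_mul (by omega) (by omega), Finset.mem_union] at hp
      exact hp.resolve_left hpa'
    obtain ⟨⟨q, hq, hle, hlt⟩, -⟩ := h₃ a b ha hb g1.2.2.1 g2.2.2.1 g3.2.2.1 g4.2.2.1 p hpb hpa'
    have ha0 : a.factorization p = 0 := by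
      rw [← Nat.support_factorization, Finsupp.notMem_support_iff] at hpa'
      exact hpa'
    refine ⟨q, hq, ?_, ?_⟩
    · rw [PRF2.f_ab ha hb, PRF2.f_ab ha hb, ha0, zero_add]
      exact hle
    · rw [PRF2.f_ab ha hb, tower_eq]
      exact hlt
  · intro hpos hpb g hg hgk
    have hk : 0 < k := lt_of_lt_of_le hg.pos hgk
    have hpa : p ∈ a.primeFactors := by
      refine (main ?_).1
      rcases hpos with h | h
      · left; omega
      · right; omega
    have hpa' : a.factorization p ≠ 0 := by
      rw [← Nat.support_factorization, Finsupp.mem_support_iff] at hpa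
      exact hpa
    exact h₂ a b ha hb g1.2.1 g2.2.1 g3.2.1 g4.2.1 p hp hpos hpb hpa' g hg hgk

end Pool.Agent.Results.MP_1b773e_co.ExtremePrimes
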