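import Mathlib
import Pool.Agent.PRF2.Gap
import Pool.Agent.PRF2.Iter
import Pool.Agent.PRF2.Small
import Pool.Agent.PRF2.Val
import Pool.Agent.PRF2.Dep2
import Pool.Agent.PRF2.Many
import Pool.Agent.Results.MP_1b773e_co.DependentAll

/-!
# MP_1b773e: perfect powers in a monochromatic pattern `a, b, ab, a ^ b, a ^ b * b`

Let `G (n)` be the largest `m` for which `n` is an `m`-th power.

* Every number `n` of a monochromatic pattern is an iterated power of any given height `k`, because `a ^ b` is a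
  `b`-th power and `b` has the colour of `a ^ b`; the last exponent is large in terms of the small primes of `n`.
* The numbers `G (a), G (ab), G (a ^ b * b)` have small common divisors, and they all divide `b` times a nonzero minor
  of the two vectors of exponents of `a` and `b`. So their product is at most `b ^ 6 * log₂ a`. A finite
  colouring makes them equal up to factors `(log a) ^ ε`.
* `a` has the colour of `ab`, so `a` is a product `y₁ m₁` as well, `y₁ = y₂ m₂`, and so on. If the exponent vector of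
  `a` does not depend on those of `m₁, …, m_d`, then `2 d + 1` contents divide a small multiple of `log a`.
* The power of a small prime `g` in `G (n)` is at most the number of prime factors of `b`.
-/

namespace Pool.Agent.Results.MP_1b773e_co.Powers

/-- Iterated exponentials: `tower 0 n = n`, `tower (k + 1) n = 2 ^ tower k n`. -/
def tower : ℕ → ℕ → ℕ
  | 0, n => n
  | k + 1, n => 2 ^ tower k n

/-- `IteratedPower k M n`: the number `n` is `x₁ ^ (x₂ ^ (… ^ (x_k ^ y)))` with `x₁, …, x_k ≥ 2` and `y ≥ M`. -/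
def IteratedPower : ℕ → ℕ → ℕ → Prop
  | 0, M, n => M ≤ n
  | k + 1, M, n => ∃ x y : ℕ, 2 ≤ x ∧ IteratedPower k M y ∧ n = x ^ y

private theorem tower_eq (k n : ℕ) : tower k n = PRF.TGap.tower k n := by
  induction k with
  | zero => rfl
  | succ k ih => rw [tower, PRF.TGap.tower, ih]

private theorem it_eq (k : ℕ) : ∀ {M n : ℕ}, PRF2.It k M n → IteratedPower k M n := by
  induction k with
  | zero => intro M n h; exact h
  | succ k ih =>
    rintro M n ⟨x, y, hx, hy, hn⟩
    exact ⟨x, y, hx, ih hy, hn⟩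

private theorem omega_eq (n : ℕ) : PRF2.Fw (fun _ => 1) n = n.primeFactorsList.length := by
  unfold PRF2.Fw
  rw [Finsupp.sum, Nat.support_factorization, ← List.sum_toFinset_count_eq_length]
  apply Finset.sum_congr rfl
  intro p _
  rw [mul_one, Nat.primeFactorsList_count_eq]

private theorem omega_pos {n : ℕ} (hn : 1 < n) : n.primeFactorsList.length ≠ 0 := by
  intro h
  rw [List.length_eq_zero_iff, Nat.primeFactorsList_eq_nil] at h
  omega

/-- For all `k` and `ε > 0` there is a finite colouring such that for all `a, b > 1` for which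
`a, b, ab, a^b, a^b b` have the same colour each `n` of these five numbers has the following properties.
Let `p` be one of the `k` smallest prime factors of `n`. Then `n` is an iterated power `x₁ ^ (… ^ (x_k ^ y))` with
`y ≥ tower k p`, and if the least prime factor `q` of `ab` divides `b`, then `n` is a `q^j`-th power for some
`j ≥ tower k p`. If `n` is an `m`-th power, then `m < (log n) ^ (1/3 + ε)`, and even
`m * tower k b < (log n) ^ (1/3 + ε)` if `n ≠ b`; if `m ≥ (log n) ^ (1 / (2 d + 1) + ε)` with `2 ≤ d ≤ k`, then `n` is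
multiplicatively dependent on `d` numbers `u` with `tower k u < n`; if `n ≠ a ^ b` and `m` is a power of a prime
number `g ≤ k`, then `m` is at most the number of prime factors of `b`, counted with multiplicity; and if some prime
factor `p` of `b` does not divide `a`, then `tower k m < n`, and if moreover `n ≠ a ^ b`, then `tower k m < b` and `m` is
at most the exponent of `p` in `b`. In the latter case `n = s ^ m` for some `s, m` for which `m` has a prime factor
which does not divide `n`, and some exponent `v` of `s` satisfies `tower k v < m`. -/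
theorem result (k : ℕ) (ε : ℝ) (hε : 0 < ε) : ∃ (r : ℕ) (c : ℕ → Fin r), ∀ a b : ℕ, 1 < a → 1 < b →
    c a = c b → c a = c (a * b) → c a = c (a ^ b) → c a = c (a ^ b * b) →
    ∀ n ∈ ({a, b, a * b, a ^ b, a ^ b * b} : Set ℕ),
      (∀ p ∈ n.primeFactors, (n.primeFactors.filter (· < p)).card < k →
        IteratedPower k (tower k p) n ∧
        ((a * b).minFac ∣ b → ∃ s j : ℕ, tower k p ≤ j ∧ n = s ^ (a * b).minFac ^ j)) ∧
      (¬ b.primeFactors ⊆ a.primeFactors → ∃ s m : ℕ, n = s ^ m ∧ (∃ r ∈ m.primeFactors, ¬ r ∣ n) ∧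
        ∃ q ∈ s.primeFactors, tower k (s.factorization q) < m) ∧
      ∀ s m : ℕ, n = s ^ m → (m : ℝ) < Real.log n ^ (1 / 3 + ε) ∧
        (n ≠ b → (m : ℝ) * tower k b < Real.log n ^ (1 / 3 + ε)) ∧
        (∀ d : ℕ, 2 ≤ d → d ≤ k → Real.log n ^ (1 / (2 * (d : ℝ) + 1) + ε) ≤ m →
          ∃ u s t : Fin d → ℕ, (∀ i, 2 ≤ u i ∧ tower k (u i) < n) ∧
            ∃ w : ℕ, 0 < w ∧ n ^ w * ∏ i, u i ^ s i = ∏ i, u i ^ t i) ∧
        (n ≠ a ^ b → ∀ g j : ℕ, g.Prime → g ≤ k → m = g ^ j → m ≤ b.primeFactorsList.length) ∧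
        (∀ p ∈ b.primeFactors, ¬ p ∣ a → tower k m < n ∧
          (n ≠ a ^ b → tower k m < b ∧ m ≤ b.factorization p)) := by
  classical
  obtain ⟨r₀, c₀, h₀⟩ := DependentAll.result
  obtain ⟨r₁, c₁, h₁⟩ := PRF2.power_gap k ε hε r₀ c₀ (fun a b ha hb h => h₀ a b ha hb (Or.inl h))
  obtain ⟨r₂, c₂, h₂⟩ := PRF2.iterated k
  obtain ⟨r₄, c₄, h₄⟩ := PRF2.small k
  have hv : ∀ g : Fin (k + 1), ∃ (r : ℕ) (c : ℕ → Fin r), ∀ a b : ℕ, 1 < a → 1 < b →
      c a = c b → c a = c (a * b) → c a = c (a ^ b) → c a = c (a ^ b * b) → (g : ℕ).Prime →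
      PRF2.Fw (fun _ => 1) a ≠ 0 ∧
      PRF2.vg g (PRF2.Fw (fun _ => 1) a) < PRF2.vg g (PRF2.Fw (fun _ => 1) b) ∧
      PRF2.vg g (PRF2.Fw (fun _ => 1) (a ^ b * b)) ≤ PRF2.vg g (PRF2.Fw (fun _ => 1) b) := by
    intro g
    by_cases hg : (g : ℕ).Prime
    · obtain ⟨r, hr⟩ := PRF2.valuations g 0 hg
      obtain ⟨c, hc⟩ := hr Unit (fun _ => ()) (fun _ _ => 1)
      refine ⟨r, c, fun a b ha hb e1 e2 e3 e4 _ => ?_⟩
      obtain ⟨u1, u2, u3, -⟩ := hc a b ha hb e1 e2 e3 e4 () rfl rfl rfl rfl rfl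
        (by rw [omega_eq]; exact omega_pos hb)
      exact ⟨u1, u2, u3⟩
    · exact ⟨1, fun _ => 0, fun a b _ _ _ _ _ _ h => absurd h hg⟩
  choose r₃ c₃ h₃ using hv
  have hw : ∀ d : Fin (k + 1), ∃ (r : ℕ) (c : ℕ → Fin r), ∀ a b : ℕ, 1 < a → 1 < b →
      c a = c b → c a = c (a * b) → c a = c (a ^ b) → c a = c (a ^ b * b) → 1 ≤ (d : ℕ) →
      ∀ n : ℕ, n = a ∨ n = b ∨ n = a * b ∨ n = a ^ b ∨ n = a ^ b * b →
        Real.log n ^ (1 / (2 * ((d : ℕ) : ℝ) + 1) + ε) ≤ (PRF2.G n : ℝ) → PRF2.Dep k d n := by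
    intro d
    by_cases hd : 1 ≤ (d : ℕ)
    · obtain ⟨r, c, hc⟩ := PRF2.dependence k d hd ε hε
      exact ⟨r, c, fun a b ha hb e1 e2 e3 e4 _ => hc a b ha hb e1 e2 e3 e4⟩
    · exact ⟨1, fun _ => 0, fun a b _ _ _ _ _ _ h => absurd h hd⟩
  choose r₅ c₅ h₅ using hw
  obtain ⟨r₆, c₆, h₆⟩ := PRF2.low k
  obtain ⟨r₇, c₇, h₇⟩ := PRF2.own k
  let X := ((((Fin r₁ × Fin r₂) × Fin r₄) × ((g : Fin (k + 1)) → Fin (r₃ g))) × ((g : Fin (k + 1)) → Fin (r₅ g))) ×
    Fin r₆ × Fin r₇
  let f : ℕ → X := fun n => (((((c₁ n, c₂ n), c₄ n), fun g => c₃ g n), fun g => c₅ g n), c₆ n, c₇ n)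
  refine ⟨Fintype.card X, fun n => Fintype.equivFin X (f n), ?_⟩
  intro a b ha hb e1 e2 e3 e4 n hn
  have g1 : f a = f b := (Fintype.equivFin X).injective e1
  have g2 : f a = f (a * b) := (Fintype.equivFin X).injective e2
  have g3 : f a = f (a ^ b) := (Fintype.equivFin X).injective e3
  have g4 : f a = f (a ^ b * b) := (Fintype.equivFin X).injective e4
  have p1 : ∀ {x y : ℕ}, f x = f y → c₁ x = c₁ y := fun h => congrArg (fun z => z.1.1.1.1.1) h
  have p2 : ∀ {x y : ℕ}, f x = f y → c₂ x = c₂ y := fun h => congrArg (fun z => z.1.1.1.1.2) h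
  have p4 : ∀ {x y : ℕ}, f x = f y → c₄ x = c₄ y := fun h => congrArg (fun z => z.1.1.1.2) h
  have p3 : ∀ {x y : ℕ}, f x = f y → ∀ g, c₃ g x = c₃ g y := fun h g => congrFun (congrArg (fun z => z.1.1.2) h) g
  have p5 : ∀ {x y : ℕ}, f x = f y → ∀ g, c₅ g x = c₅ g y := fun h g => congrFun (congrArg (fun z => z.1.2) h) g
  have p6 : ∀ {x y : ℕ}, f x = f y → c₆ x = c₆ y := fun h => congrArg (fun z => z.2.1) h
  have p7 : ∀ {x y : ℕ}, f x = f y → c₇ x = c₇ y := fun h => congrArg (fun z => z.2.2) h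
  have hn' : n = a ∨ n = b ∨ n = a * b ∨ n = a ^ b ∨ n = a ^ b * b := by
    simpa only [Set.mem_insert_iff, Set.mem_singleton_iff] using hn
  obtain ⟨q1, q2⟩ := h₁ a b ha hb (p1 g1) (p1 g2) (p1 g3) (p1 g4)
  have hn2 : 2 ≤ n := by
    have hw : 1 < a ^ b := Nat.one_lt_pow (by omega) ha
    rcases hn' with rfl | rfl | rfl | rfl | rfl
    · exact ha
    · exact hb
    · nlinarith
    · exact hw
    · nlinarith
  have hT : (1:ℝ) ≤ tower k b := by
    have h5 := PRF2.le_tower_mul k (show 1 ≤ b by omega)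
    have h6 : 1 ≤ 2 ^ k * b := Nat.mul_pos (by positivity) (by omega)
    rw [tower_eq]
    exact_mod_cast h6.trans h5
  refine ⟨?_, ?_, ?_⟩
  · intro p hp hcard
    rw [tower_eq]
    obtain ⟨u1, u2⟩ := h₂ a b ha hb (p2 g1) (p2 g2) (p2 g3) (p2 g4) n hn' p hp hcard
    exact ⟨it_eq k u1, u2⟩
  · intro hnew
    simp only [tower_eq]
    exact h₇ a b ha hb (p7 g1) (p7 g2) (p7 g3) (p7 g4) hnew n hn'
  · intro s m hsm
    have hmG : m ≤ PRF2.G n := Nat.le_of_dvd (PRF2.G_pos hn2) (PRF2.dvd_G_pow hsm)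
    have hm : (m : ℝ) ≤ PRF2.G n := by exact_mod_cast hmG
    have hm0 : (0:ℝ) ≤ m := Nat.cast_nonneg m
    have key : n ≠ b → (m : ℝ) * tower k b < Real.log n ^ (1 / 3 + ε) := by
      intro hnb
      have h5 : n = a ∨ n = a * b ∨ n = a ^ b ∨ n = a ^ b * b := by
        rcases hn' with h | h | h | h | h
        · exact Or.inl h
        · exact absurd h hnb
        · exact Or.inr (Or.inl h)
        · exact Or.inr (Or.inr (Or.inl h))
        · exact Or.inr (Or.inr (Or.inr h))
      have h6 := q1 n h5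
      rw [← tower_eq] at h6
      exact lt_of_le_of_lt (mul_le_mul_of_nonneg_right hm (by linarith)) h6
    refine ⟨?_, key, ?_, ?_, ?_⟩
    · by_cases hnb : n = b
      · rw [hnb] at hm ⊢
        exact lt_of_le_of_lt hm q2
      · exact lt_of_le_of_lt (le_mul_of_one_le_right hm0 hT) (key hnb)
    · intro d hd2 hdk hlog
      obtain ⟨u, s', t', hu, w, hw0, hw1⟩ := h₅ ⟨d, by omega⟩ a b ha hb (p5 g1 _) (p5 g2 _) (p5 g3 _) (p5 g4 _)
        (show 1 ≤ d by omega) n hn' (hlog.trans hm)
      exact ⟨u, s', t', fun i => ⟨(hu i).1, by rw [tower_eq]; exact (hu i).2⟩, w, hw0, hw1⟩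
    · intro hnw g j hg hgk hmj
      obtain ⟨v0, v1, v2⟩ := h₃ ⟨g, by omega⟩ a b ha hb (p3 g1 _) (p3 g2 _) (p3 g3 _) (p3 g4 _) hg
      have hB : PRF2.Fw (fun _ => 1) b ≠ 0 := by rw [omega_eq]; exact omega_pos hb
      have hs0 : s ≠ 0 := by
        rintro rfl
        rcases Nat.eq_zero_or_pos m with h5 | h5
        · rw [h5, pow_zero] at hsm; omega
        · rw [zero_pow (by omega)] at hsm; omega
      have hdvd : g ^ j ∣ PRF2.Fw (fun _ => 1) n := by
        rw [hsm, PRF2.Fw_pow _ hs0, hmj]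
        exact Dvd.intro _ rfl
      have hn0 : PRF2.Fw (fun _ => 1) n ≠ 0 := by rw [omega_eq]; exact omega_pos hn2
      have hj : j ≤ PRF2.vg g (PRF2.Fw (fun _ => 1) n) :=
        (hg.pow_dvd_iff_le_factorization hn0).mp hdvd
      have hjb : j ≤ PRF2.vg g (PRF2.Fw (fun _ => 1) b) := by
        rcases hn' with rfl | rfl | rfl | rfl | rfl
        · exact hj.trans v1.le
        · exact hj
        · -- the number `ab`
          by_contra hcon
          push Not at hcon
          have h5 : g ^ j ∣ PRF2.Fw (fun _ => 1) a + PRF2.Fw (fun _ => 1) b := by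
            rw [← PRF2.Fw_mul _ (by omega) (by omega)]
            exact hdvd
          set A := PRF2.Fw (fun _ => 1) a with hA
          set B := PRF2.Fw (fun _ => 1) b with hB'
          have h6 : g ^ (PRF2.vg g A + 1) ∣ B :=
            (hg.pow_dvd_iff_le_factorization hB).mpr v1
          have h7 : g ^ (PRF2.vg g A + 1) ∣ A + B :=
            (pow_dvd_pow g (by
              have : PRF2.vg g A < PRF2.vg g B := v1
              omega)).trans h5
          have h8 : g ^ (PRF2.vg g A + 1) ∣ A := (Nat.dvd_add_left h6).mp h7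
          have h9 := (hg.pow_dvd_iff_le_factorization v0).mp h8
          have : PRF2.vg g A = A.factorization g := rfl
          omega
        · exact absurd rfl hnw
        · exact hj.trans v2
      have h5 : g ^ j ∣ PRF2.Fw (fun _ => 1) b := (hg.pow_dvd_iff_le_factorization hB).mpr hjb
      rw [hmj, ← omega_eq]
      exact Nat.le_of_dvd (Nat.pos_of_ne_zero hB) h5
    · intro p hp hpa
      have hpa' : p ∉ a.primeFactors := fun h => hpa (Nat.dvd_of_mem_primeFactors h)
      refine ⟨?_, fun hnw => ?_⟩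
      · rw [tower_eq]
        exact lt_of_le_of_lt (PRF.TGap.tower_mono' k hmG)
          (h₄ a b ha hb (p4 g1) (p4 g2) (p4 g3) (p4 g4) (fun h => hpa' (h hp)) n hn')
      · obtain ⟨-, u⟩ := h₆ a b ha hb (p6 g1) (p6 g2) (p6 g3) (p6 g4) p hp hpa'
        obtain ⟨u1, u2⟩ := u n (by
          rcases hn' with h | h | h | h | h
          · exact Or.inl h
          · exact Or.inr (Or.inl h)
          · exact Or.inr (Or.inr (Or.inl h))
          · exact absurd h hnw
          · exact Or.inr (Or.inr (Or.inr h)))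
        rw [tower_eq]
        exact ⟨lt_of_le_of_lt (PRF.TGap.tower_mono' k hmG) u2, hmG.trans u1⟩

end Pool.Agent.Results.MP_1b773e_co.Powers
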